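import Mathlib
import Pool.Agent.L0h16.NC.Cor

/-!
# The noncommutative Hodge conjecture for all products of copies of a category and of its opposite
# follows from the products of a bounded number of factors

Let `C` be an admissible subcategory of `D^perf(X)` for a smooth proper complex variety `X`, with the
topological K-theory `V = K^top_0(C) ⊗ ℚ ⊕ K^top_1(C) ⊗ ℚ = ℚ ^ ι` (`KTop`), and let `t` be the
transcendental rank of `C` (`transRank`), the dimension of `V` minus the dimension of the space of the
Hodge classes in `K^top_0(C) ⊗ ℚ`. Let `w ≥ 1` be a number such that `HH_k(C) = 0` for `|k| > w`. The Hodge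
structure `V` has a polarisation `Q`, since it is a direct summand of the one of `X`.

The products `C^(ε 0) ⊠ ... ⊠ C^(ε (n - 1))`, where `C^(ε m)` is `C` or `C^op`, are admissible
subcategories of `D^perf(X ^ n)`. They have the topological K-theory `V^(ε 0) ⊗ ... ⊗ V^(ε (n - 1))`, where
`V^op` is the dual of `V`.

Let

* `N = max 4 t` if the centre of the algebra of the endomorphisms of the Hodge structure `V` is totally
  real (it consists of self-adjoint endomorphisms);
* `N = max 4 (t ^ 2 / 4)` if `∑ k Tr(f | HH_k(C)) = 0` for all `f` in this centre;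
* `N = max 4 ((w t) ^ t)` without any condition.

Then

* all Hodge classes of all products of any number of copies of `C` and of `C^op` are generated by the
  Hodge classes of the products of at most `N` factors: they are obtained from them by linear
  combinations, products, interchange of factors, and the functors `RHom(F, E)` for two factors `C^op`
  and `C` (`Generated`);
* so the noncommutative Hodge conjecture for all products with any number of factors follows from the
  noncommutative Hodge conjecture for the products of at most `N` factors; of the classes of objects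
  only the obvious properties are used (`IsObjectClasses`);
* and it follows for all categories whose noncommutative motive with rational coefficients is a direct
  factor of a finite sum of motives of such products (`IsDirectFactor`), for instance for all admissible
  subcategories of the products, and for the symmetric powers of `C`.

For example, if `C` is the Kuznetsov component of a cubic fourfold or of a Gushel-Mukai fourfold or
sixfold then `t ≤ 22`, and the centre is totally real unless the transcendental Hodge structure has
complex multiplication; `t` is small if there are many algebraic classes. The number of factors does not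
depend on the variety `X` and its cohomology, only on `C`.

The theorem for the powers of a variety, `C = D^perf(X)`, is the starting result
`MP_e12fcd_ag.BoundedPower` on the Hodge conjecture, and the core of its proof is used
here, the bounds for the degrees of the invariants of the Hodge group of a polarised Hodge structure. The
new points are the reduction for categories, which have no algebra structure, diagonal, and unit class,
for which `C` and `C^op` are different, and the polarisation is not given by objects; and the
parts `K^top_0` and `K^top_1` with the sign for the interchange of factors.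
-/

set_option autoImplicit false

namespace Pool.Agent.Results.MP_43e44c_ag.BoundedNumberOfFactors

open Pool.Agent.L0h16.NC

variable {ι : Type} [Fintype ι] [DecidableEq ι]

/-- A smooth and proper category `E` whose noncommutative motive with rational coefficients is a direct
factor of a finite sum of the motives of the products of the categories `C^(ε j m)`, `m < n j`. Here `W` is
the topological K-theory of `E`, `Hdg` is the space of its Hodge classes and `ZE` the span of the classes
of objects; `f j` and `g j` are the maps given by kernels (combinations of objects of the products of `E`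
and the products above), which preserve Hodge classes and classes of objects. -/
structure IsDirectFactor (V : KTop ι)
    (Z : ∀ {n : ℕ}, (Fin n → Bool) → Submodule ℚ ((Fin n → ι) → ℚ)) {J : Type} [Fintype J]
    (n : J → ℕ) (ε : ∀ j, Fin (n j) → Bool) {W : Type} [AddCommGroup W] [Module ℚ W]
    (Hdg ZE : Submodule ℚ W) (f : ∀ j, W →ₗ[ℚ] ((Fin (n j) → ι) → ℚ))
    (g : ∀ j, ((Fin (n j) → ι) → ℚ) →ₗ[ℚ] W) : Prop where
  hodge : ∀ j, ∀ x ∈ Hdg, V.IsHodge (ε j) (f j x)
  obj : ∀ j, ∀ a ∈ Z (ε j), g j a ∈ ZE
  sum : ∀ x ∈ Hdg, ∑ j, g j (f j x) = x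

lemma generated_zero {V : KTop ι} {N : ℕ} (hN : 1 ≤ N) : ∀ {n : ℕ} (ε : Fin n → Bool),
    Generated V N ε 0 := by
  have h0 : ∀ {n : ℕ} (ε : Fin n → Bool), V.IsHodge ε 0 := by
    intro n ε k _ i
    simp
  intro n
  induction n with
  | zero => exact fun ε => .hodge (Nat.zero_le _) (h0 ε)
  | succ n ih =>
    intro ε
    have h1 := Generated.box (ih (fun j => ε (Fin.castAdd 1 j)))
      (Generated.hodge (V := V) hN (h0 fun j : Fin 1 => ε (Fin.natAdd n j)))
    have h2 : Fin.append (fun j => ε (Fin.castAdd 1 j)) (fun j : Fin 1 => ε (Fin.natAdd n j)) =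
        ε := Fin.append_castAdd_natAdd
    have h3 : box (0 : (Fin n → ι) → ℚ) (0 : (Fin 1 → ι) → ℚ) = 0 := by
      funext i
      simp [box]
    rw [h2, h3] at h1
    exact h1

/-- The generated classes. -/
def gen (V : KTop ι) {N : ℕ} (hN : 1 ≤ N) {n : ℕ} (ε : Fin n → Bool) :
    Submodule ℚ ((Fin n → ι) → ℚ) where
  carrier := {a | Generated V N ε a}
  add_mem' ha hb := .add ha hb
  zero_mem' := generated_zero hN ε
  smul_mem' c _ ha := .smul c ha

lemma sys_gen (V : KTop ι) {N : ℕ} (hN : 2 ≤ N) :
    Sys V (fun {_} ε => gen V (N := N) (by omega) ε) where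
  box _ _ _ _ ha hb := .box ha hb
  swap _ _ j ha := .swap j ha
  ev _ _ ha := .ev ha
  two _ _ ha := .hodge hN ha

lemma four_le {V : KTop ι} {Q : Matrix ι ι ℚ} {t N : ℕ} (hN : Admissible V Q t N) : 4 ≤ N := by
  rcases hN with ⟨-, h⟩ | ⟨-, h⟩ | h <;> rw [h] <;> exact le_max_left _ _

lemma all_generated {V : KTop ι} {Q : Matrix ι ι ℚ} (hQ : IsPolarisation V Q) {N : ℕ}
    (hN : Admissible V Q (transRank V) N) {n : ℕ} (ε : Fin n → Bool) (a : (Fin n → ι) → ℚ)
    (ha : V.IsHodge ε a) : Generated V N ε a := by
  have h4 := four_le hN
  exact core (sys_gen V (N := N) (by omega)) hQ hN (fun ε hn a ha => .hodge hn ha)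
    (fun ε a ha => generated_hodge ha) ε a ha

lemma mem_of_generated {V : KTop ι} {N : ℕ}
    {Z : ∀ {n : ℕ}, (Fin n → Bool) → Submodule ℚ ((Fin n → ι) → ℚ)} (hZ : IsObjectClasses V Z)
    (h : ∀ (n : ℕ) (ε : Fin n → Bool), n ≤ N → HodgeConjecture V ε (Z ε)) {n : ℕ}
    {ε : Fin n → Bool} {a : (Fin n → ι) → ℚ} (ha : Generated V N ε a) : a ∈ Z ε := by
  induction ha with
  | hodge hn ha => exact h _ _ hn _ ha
  | add _ _ iha ihb => exact Submodule.add_mem _ iha ihb
  | smul c _ iha => exact Submodule.smul_mem _ c iha
  | box _ _ iha ihb => exact hZ.box _ _ _ _ iha ihb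
  | swap j _ iha => exact hZ.swap _ _ j iha
  | ev _ iha => exact hZ.ev _ _ iha

/-- **The noncommutative Hodge conjecture for all products of copies of `C` and of `C^op` follows from
the products of a bounded number of factors.** -/
theorem result (V : KTop ι) (Q : Matrix ι ι ℚ) (hQ : IsPolarisation V Q) (N : ℕ)
    (hN : Admissible V Q (transRank V) N) :
    (∀ (n : ℕ) (ε : Fin n → Bool) (a : (Fin n → ι) → ℚ), V.IsHodge ε a → Generated V N ε a) ∧
    ∀ Z : ∀ {n : ℕ}, (Fin n → Bool) → Submodule ℚ ((Fin n → ι) → ℚ), IsObjectClasses V Z →
      (∀ (n : ℕ) (ε : Fin n → Bool), n ≤ N → HodgeConjecture V ε (Z ε)) →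
      (∀ (n : ℕ) (ε : Fin n → Bool), HodgeConjecture V ε (Z ε)) ∧
      ∀ {J : Type} [Fintype J] (n : J → ℕ) (ε : ∀ j, Fin (n j) → Bool) {W : Type}
        [AddCommGroup W] [Module ℚ W] (Hdg ZE : Submodule ℚ W)
        (f : ∀ j, W →ₗ[ℚ] ((Fin (n j) → ι) → ℚ)) (g : ∀ j, ((Fin (n j) → ι) → ℚ) →ₗ[ℚ] W),
        IsDirectFactor V Z n ε Hdg ZE f g → Hdg ≤ ZE := by
  have h1 : ∀ (n : ℕ) (ε : Fin n → Bool) (a : (Fin n → ι) → ℚ), V.IsHodge ε a →
      Generated V N ε a := fun n ε a ha => all_generated hQ hN ε a ha
  refine ⟨h1, fun Z hZ h => ?_⟩
  have h2 : ∀ (n : ℕ) (ε : Fin n → Bool), HodgeConjecture V ε (Z ε) := fun n ε a ha =>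
    mem_of_generated hZ h (h1 n ε a ha)
  refine ⟨h2, fun {J} _ n ε {W} _ _ Hdg ZE f g hF x hx => ?_⟩
  rw [← hF.sum x hx]
  exact Submodule.sum_mem _ fun j _ => hF.obj j _ (h2 _ _ _ (hF.hodge j x hx))

end Pool.Agent.Results.MP_43e44c_ag.BoundedNumberOfFactors
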