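import Mathlib
import Pool.Agent.Y91.PS.Free
import Pool.Agent.R299.NCH.Main

/-!
# The noncommutative Hodge conjecture for `D(A) ⊠ 𝒟`, for very general members `A` of families of
# abelian varieties and all admissible subcategories `𝒟`

Let `𝒟` be an admissible subcategory of `D^perf(Y)`, for a smooth proper complex variety `Y`. Its
topological K-theory `K^top(𝒟) ⊗ ℚ` is a direct summand of the one of `Y`, with its Hodge structure. In
the statement the rational topological K-theory of `Y` is `V : Coh v`, a space `ℚ ^ v` with the Hodge
operator `V.z`, the multiplication by `p - q` on the classes of type `(p, q)`, and `𝒟` is given by the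
projector `P` of this space defined by the projection functor onto `𝒟` (`IsProjector`).

Let `A i` be finitely many families of principally polarized abelian varieties, not constant, given
by holomorphic families `Z i` of period matrices over the connected open set `U` (for instance the
universal covering of a curve), and suppose that each of them is good (`IsGoodFamily`): it satisfies
one of the following conditions.

1. The very general member is simple, more than half of its endomorphisms are symmetric for the
   Rosati involution (that is, its endomorphism algebra is of type I or II in the classification of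
   Albert) and some rational rank `r` is different from `0`, `g / 2` and `g`, and `(g, r)` is not
   exceptional, or there is another rational rank. A rational rank is the rank of `γ - 1` for a
   monodromy operator `γ` with `(γ - 1) ^ 2 = 0`, that is the dimension of the toric part of the
   fibre of the Néron model at a semistable degeneration, or the rank of any rational square zero
   element of the Lie algebra generated by the Hodge operators. The pair is exceptional if
   `2 g = e * C(4j+2, 2j+1)` and `r = e * C(4j, 2j)` for some `e` and some `j ≥ 1`, for instance
   `(10, 6)`, `(126, 70)`.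
2. All endomorphisms are rational numbers, some rank `r` of the family is different from `0`, `g / 2`
   and `g`, and `(g, r)` is not exceptional with `e = 1` or there is another rank, and `2 g` does not
   divide the product of two of the ranks. Here a rank of the family is the rank of the
   Kodaira-Spencer map at one point, of the difference of two period matrices, of the image of a
   period matrix under a derivation of the complex numbers, or of any square zero element of the
   Lie algebra generated by the Hodge operators.
3. The very general member is simple and some rank of the family is odd, or is two and the centre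
   of the endomorphism algebra is totally real.

Let `K` be a countable field of complex numbers. Then for all `t` in `U` outside of a countable set,
for all products `A` of the members `A i t` (repetitions allowed) and for **all** admissible
subcategories `𝒟` such that the Hodge structure `K^top(𝒟)` is of CM type (`IsCMTypeD`) or its Hodge
operator has entries in `K` (`HasPeriodsInD`):

* every Hodge class in `K^top(D(A) ⊠ 𝒟) ⊗ ℚ` is a sum of products `f ⊗ x`, where `f` is a combination of
  products of divisor classes on `A` and `x` is a Hodge class in `K^top(𝒟) ⊗ ℚ`;
* **the noncommutative Hodge conjecture for `D(A) ⊠ 𝒟` is equivalent to the noncommutative Hodge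
  conjecture for `𝒟`.**

For instance, let `K` be the field which is generated by the algebraic numbers and the periods of all
varieties over the algebraic numbers (and over finitely generated extensions of them in `ℂ` that are
fixed in advance). It is countable. So for all `t` outside of a countable set the theorem applies to all
admissible subcategories `𝒟` of all `D^perf(Y)` with `Y` over the algebraic numbers, and also to
the admissible subcategories `𝒟` of `D^perf(Y)` for arbitrary varieties `Y`, if only the part
`K^top(𝒟)` of the cohomology of `Y` has periods in `K` or complex multiplication, for instance to the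
K3 categories of all cubic fourfolds over the algebraic numbers or with complex multiplication, for
which the noncommutative Hodge conjecture is known.

Of the classes of objects, `alg` and `algA`, only two properties are used (`IsObjectClasses`): the
product of a product of divisor classes on `A` and the class of an object of `𝒟` is in the span of the
classes of objects of `D(A) ⊠ 𝒟`; and the restriction to the fibre over the origin of `A` maps objects
of `D(A) ⊠ 𝒟` to objects of `𝒟`.

The proof uses the theorem that the Hodge structures of `A` and of such `𝒟` are independent; it is the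
one of the starting result `MP_0c8446_ag.TimesMonodromyFamilies` on algebraic cycles, applied to the
Hodge structure of `𝒟`.
-/

set_option autoImplicit false

namespace Pool.Agent.Results.MP_43e44c_ag.BoxWithGeneralFamilies

open Matrix Module Pool.Agent.H204R3.CM Pool.Agent.H194R3.CM Pool.Agent.W437.HD
  Pool.Agent.W437.HP Pool.Agent.TH131.GHC Pool.Agent.TH504.VY Pool.Agent.TH504.CB
  Pool.Agent.Y91.Sharp Pool.Agent.Y91.PS Pool.Agent.R299.NCH

/-- The Hodge structure `K^top(𝒟)`, the image of `P`, is of CM type: on it the Hodge operator commutes
with all its conjugates under the automorphisms of the complex numbers. -/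
def IsCMTypeD {v : ℕ} (V : Coh v) (P : Matrix (Fin v) (Fin v) ℚ) : Prop :=
  ∀ σ : ℂ ≃+* ℂ, cm P * (V.z * V.z.map σ) = cm P * (V.z.map σ * V.z)

/-- The Hodge operator of `K^top(𝒟)`, the image of `P`, has entries in the field `K` (for instance since
all periods of `K^top(𝒟)` are in `K`). -/
def HasPeriodsInD (K : Subfield ℂ) {v : ℕ} (V : Coh v) (P : Matrix (Fin v) (Fin v) ℚ) : Prop :=
  ∀ a b, (cm P * V.z) a b ∈ K

section restrict

variable {v : ℕ} {V : Coh v} {P : Matrix (Fin v) (Fin v) ℚ} (hP : IsProjector V P) (S : Split P)

theorem cm_sig {m n : ℕ} (A : Matrix (Fin m) (Fin n) ℚ) (σ : ℂ ≃+* ℂ) : (cm A).map σ = cm A := by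
  ext i k
  simp [cm]

theorem NP : cm S.N * cm P = cm S.N := by
  rw [← hMN S, ← Matrix.mul_assoc, hNM, Matrix.one_mul]

include hP in
theorem cmType_restrict (h : IsCMTypeD V P) : IsCMType (restrict V hP S) := by
  intro σ
  have h1 : (restrict V hP S).z.map σ = cm S.N * V.z.map σ * cm S.M := by
    change (cm S.N * V.z * cm S.M).map σ = _
    have h2 : (cm S.N * V.z * cm S.M).map σ =
        (cm S.N).map σ * V.z.map σ * (cm S.M).map σ := by
      rw [Matrix.map_mul, Matrix.map_mul]
    rw [h2, cm_sig, cm_sig]
  have hPs : cm P * V.z.map σ = V.z.map σ * cm P := by
    have h2 := congrArg (fun M : Matrix (Fin v) (Fin v) ℂ => M.map σ) hP.hodge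
    beta_reduce at h2
    rw [Matrix.map_mul, Matrix.map_mul, cm_sig] at h2
    exact h2
  rw [h1]
  change (cm S.N * V.z * cm S.M) * (cm S.N * V.z.map σ * cm S.M) =
    (cm S.N * V.z.map σ * cm S.M) * (cm S.N * V.z * cm S.M)
  calc (cm S.N * V.z * cm S.M) * (cm S.N * V.z.map σ * cm S.M) =
      cm S.N * (V.z * (cm S.M * cm S.N)) * V.z.map σ * cm S.M := by
        simp only [Matrix.mul_assoc]
    _ = cm S.N * (cm P * (V.z * V.z.map σ)) * cm S.M := by
        rw [hMN, ← hP.hodge]
        simp only [Matrix.mul_assoc]
    _ = cm S.N * (cm P * (V.z.map σ * V.z)) * cm S.M := by rw [h σ]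
    _ = cm S.N * (V.z.map σ * (cm S.M * cm S.N)) * V.z * cm S.M := by
        rw [hMN, ← hPs]
        simp only [Matrix.mul_assoc]
    _ = _ := by simp only [Matrix.mul_assoc]

include hP in
theorem periods_restrict {K : Subfield ℂ} (h : HasPeriodsInD K V P) :
    HasPeriodsIn K (restrict V hP S) := by
  intro a b
  have h1 : (restrict V hP S).z = cm S.N * (cm P * V.z) * cm S.M := by
    change cm S.N * V.z * cm S.M = _
    rw [← Matrix.mul_assoc, NP]
  have hq : ∀ q : ℚ, (q : ℂ) ∈ K := fun q => by simp
  rw [h1, Matrix.mul_apply]
  refine K.sum_mem fun i _ => K.mul_mem ?_ (hq _)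
  rw [Matrix.mul_apply]
  exact K.sum_mem fun j _ => K.mul_mem (hq _) (h j i)

end restrict

/-- Let `Z i` be finitely many good families over the connected open set `U`, not constant, and `K` a
countable field of complex numbers. For all `t` in `U` outside of a countable set, for all admissible
subcategories `𝒟` (with the projector `P` of `K^top(Y)`) such that `K^top(𝒟)` is of CM type or its Hodge
operator has entries in `K`, and for all products `A` of abelian varieties
`ℂ ^ g / (ℤ ^ g + Z(t) ℤ ^ g)`, `Z` one of the `Z i` (repetitions allowed): the Hodge classes of
`D(A) ⊠ 𝒟` are sums of products of combinations of products of divisor classes on `A` and Hodge classes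
of `𝒟`, and the noncommutative Hodge conjecture for `D(A) ⊠ 𝒟` is equivalent to the noncommutative
Hodge conjecture for `𝒟`. -/
theorem result {ι : Type} [Fintype ι] {U : Set ℂ} (hU : IsOpen U) (hc : IsPreconnected U)
    {g : ι → ℕ} (Z : ∀ i, ℂ → Matrix (Fin (g i)) (Fin (g i)) ℂ)
    (h : ∀ i, IsGoodFamily U (Z i)) (hnc : ∀ i, ∃ s ∈ U, ∃ t ∈ U, Z i s ≠ Z i t)
    (K : Subfield ℂ) (hK : (K : Set ℂ).Countable) :
    ∃ E : Set ℂ, E.Countable ∧ ∀ t ∈ U, t ∉ E → ∀ {v : ℕ} (V : Coh v)
      (P : Matrix (Fin v) (Fin v) ℚ), IsProjector V P → (IsCMTypeD V P ∨ HasPeriodsInD K V P) →
        ∀ {m : ℕ} (c : Fin m → ι),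
          HodgeInBoxSpan (perFam (fun i => Z i t) c) V P ∧
            NCHodgeEquiv (perFam (fun i => Z i t) c) V P := by
  obtain ⟨E, hE, hEt⟩ := exists_free hU hc Z h hnc K hK
  refine ⟨E, hE, fun t ht htE v V P hP hV m c => ?_⟩
  obtain ⟨S⟩ := exists_split hP.idem
  have h1 : IsCMType (restrict V hP S) ∨ HasPeriodsIn K (restrict V hP S) :=
    hV.imp (cmType_restrict hP S) (periods_restrict hP S)
  have h2 : IsFree (fun j => Z (c j) t) (restrict V hP S) := hEt t ht htE _ h1 c
  have h3 : ∀ F', IsHodgeOnProduct (perFam (fun i => Z i t) c) (restrict V hP S) F' →
      F' ∈ crossSpan (perFam (fun i => Z i t) c) (restrict V hP S) := by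
    intro F' hF'
    refine h2.mem_of_integrals hF' fun k j e f hf β _ => ?_
    exact Submodule.subset_span ⟨k, f, _, hf, h2.integral_mem hF' e β, rfl⟩
  have h4 : ∀ F, IsHodgeAD (perFam (fun i => Z i t) c) V P F →
      F ∈ boxSpan (perFam (fun i => Z i t) c) V P := fun F hF =>
    boxSpan_of_hodge (perFam (fun i => Z i t) c) hP S h3 F hF
  exact ⟨h4, fun alg algA hC => equiv_of_box _ h4 hC⟩

end Pool.Agent.Results.MP_43e44c_ag.BoxWithGeneralFamilies
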