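import Pool.Agent.L0h13.QD.Hodge

/-!
# The proportion of the object classes among the Hodge classes of products of copies of a category

Let `C` be a smooth proper category over `ℂ` (for example an admissible subcategory of `D(X)`), for which the projector onto
`K^top_0` is given by an object of `C^op ⊗ C` (the noncommutative sign conjecture; there is nothing to prove if
`K^top_1(C)_ℚ = 0`). Let `K` be an algebraically closed field of characteristic zero.

* `NumMotives`: the noncommutative motives modulo numerical equivalence with coefficients in `K` (Marcolli and
  Tabuada: a semisimple category). `R` is the semiring of isomorphism classes with direct sum and tensor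
  product, `mult x s` is the multiplicity of the simple motive `s` in `x`, `dim x` is the dimension of the
  topological K-theory of `x` (`K_0` and `K_1`). The class `v` is the class of `1 ⊕ C ⊕ C^op`; it is self-dual as the
  dual of `C` is `C^op`, and `v ^ r` is the class of the sum of all products of at most `r` categories `C` or `C^op` (with
  multiplicities). `M.rk x` is the multiplicity of the unit motive in `x`, which is the rank of `K_0` modulo
  numerical equivalence (the kernel of the Euler form).
* `FullGrowth`: the ranks `M.rk (v ^ (2 k))` are not bounded by `c ^ k` if `c < (dim v) ^ 2`. It follows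
  from the sign conjecture: the kernels of the permutations of the factors suffice by Schur-Weyl duality.
* `HodgeData`: `obj x` is the dimension of the span of the classes of the objects in the topological K-theory
  of `x`, `hdg x` is the dimension of the space of the Hodge classes. So the nc Hodge conjecture
  for `x` is `obj x = hdg x`. `CycleAlgebra`: by the theorem of André and Kahn the projection from the motives
  generated by `v` modulo homological equivalence to those modulo numerical equivalence has a monoidal section,
  so by Deligne the latter are the representations of a reductive group `G` (after the change of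
  signs which the sign conjecture allows), with topological K-theory as fibre functor. `B` is the algebra of the
  functions `g ↦ l (g z)` on `G`, `z` an object class, `l` a linear form. It is reduced; `part s` belongs to the simple motive
  `s`, and is isomorphic to the tensor product of the space of the object classes on `s` with the dual of
  the K-theory of `s`; the classes on `s ≠ 1` are numerically trivial and numerically trivial classes form an ideal.

**Theorem.** Let `r_k` be the rank of `K_0` modulo numerical equivalence and `H_k` the dimension of the space of the Hodge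
classes of the sum of the products with at most `2k` factors.

1. `H_k / r_k` converges to an element `N` of `{1, 2, 3, …, ∞}`.
2. If the nc Hodge conjecture fails for `v ^ r`, or homological and numerical equivalence differ there, then
   `H_k ≥ (1 + b^(-2r)) r_k` for all `k ≥ r`, where `b = dim v`.
3. If `r_k / H_k` does not converge to zero then homological and numerical equivalence coincide for all
   products of copies of `C` and `C^op`.
4. If `r_k ≥ c H_k` for infinitely many `k` and one constant `c > 1/2`, then the nc Hodge conjecture
   holds for all products of copies of `C` and `C^op`, and for all direct factors of these.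
-/

set_option autoImplicit false

open Filter Topology
open scoped ENNReal

namespace Pool.Agent.Results.MP_43e44c_ag.OneHalfOfHodgeClasses

open Pool.Agent.L0h13.QD NumMotives

/-- **The proportion of the object classes among the Hodge classes.** -/
theorem result (M : NumMotives) (v : M.R) (hv : M.IsVariety v) (hg : M.FullGrowth v)
    (D : HodgeData M v) :
    -- 1. the limit
    (∃ N : ℕ∞, 1 ≤ N ∧ Tendsto
      (fun k : ℕ => (D.hdg (v ^ (2 * k)) : ℝ≥0∞) / (M.rk (v ^ (2 * k)) : ℝ≥0∞)) atTop
      (𝓝 (N : ℝ≥0∞))) ∧
    -- 2. a gap
    (∀ r k : ℕ, D.hdg (v ^ r) ≠ M.rk (v ^ r) → r ≤ k →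
      (M.dim v ^ (2 * r) + 1) * M.rk (v ^ (2 * k)) ≤ M.dim v ^ (2 * r) * D.hdg (v ^ (2 * k))) ∧
    -- 3. homological and numerical equivalence
    (¬ Tendsto (fun k : ℕ => (M.rk (v ^ (2 * k)) : ℝ) / (D.hdg (v ^ (2 * k)) : ℝ)) atTop (𝓝 0) →
      ∀ (r : ℕ) (y y' : M.R), y + y' = v ^ r → D.obj y = M.rk y) ∧
    -- 4. the nc Hodge conjecture
    (∀ c : ℝ, 1 / 2 < c →
      (∃ᶠ k : ℕ in atTop, c * (D.hdg (v ^ (2 * k)) : ℝ) ≤ (M.rk (v ^ (2 * k)) : ℝ)) →
      ∀ (r : ℕ) (y y' : M.R), y + y' = v ^ r → D.obj y = D.hdg y) := by
  classical
  have hobj : index v D.hdg ≠ ⊤ → ∀ (r : ℕ) (y y' : M.R), y + y' = v ^ r → D.obj y = M.rk y := by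
    intro hN r y y' hy
    have h1 := obj_eq_rk hv D hN r
    have h2 := rk_le_obj D.obj D.obj_one y
    have h3 := rk_le_obj D.obj D.obj_one y'
    rw [← hy, map_add, rk_add] at h1
    omega
  refine ⟨?_, fun r k hr hk => gap hv D.hdg D.hdg_one r hr k hk, ?_, ?_⟩
  · have hone : 1 ≤ index v D.hdg := by
      have h := ENNReal.le_tsum (f := fun s : M.S => if Occurs v s then
        ((D.hdg (M.cls s) * M.dim (M.cls s) : ℕ) : ℝ≥0∞) else 0) M.unit
      rw [if_pos (occurs_unit hv), M.cls_unit, D.hdg_one, map_one] at h
      simpa [index] using h
    obtain ⟨N, hN⟩ := exists_enat v D.hdg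
    refine ⟨N, ?_, ?_⟩
    · rw [← hN] at hone
      exact_mod_cast hone
    · rw [hN]; exact tendsto_index hv hg _
  · intro hnt
    apply hobj
    intro hN
    apply hnt
    have h1 := tendsto_atTop_of_index hv hg _ hN
    have h2 := h1.inv_tendsto_atTop
    refine h2.congr ?_
    intro k
    simp only [Pi.inv_apply, inv_div]
  · intro c hc hf r y y' hy
    have hc0 : 0 < c := by linarith
    have hidx : index v D.hdg < 2 := by
      have h1 := index_le_of_frequently hv hg D.hdg (1 / c) (hf.mono fun k hk => by
        rw [one_div, inv_mul_eq_div, le_div_iff₀ hc0]; linarith)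
      refine lt_of_le_of_lt h1 ?_
      have : (2 : ℝ≥0∞) = ENNReal.ofReal 2 := by simp
      rw [this, ENNReal.ofReal_lt_ofReal_iff (by norm_num)]
      rw [div_lt_iff₀ hc0]; linarith
    have hN : index v D.hdg ≠ ⊤ := fun h => by
      rw [h] at hidx
      exact absurd hidx (by simp)
    have h1 : D.hdg (v ^ r) = M.rk (v ^ r) := all_of_index_lt_two hv D.hdg D.hdg_one hidx r
    have h2 : D.obj (v ^ r) = M.rk (v ^ r) := obj_eq_rk hv D hN r
    exact eq_of_summand D.obj D.hdg D.obj_le _ y y' hy (h2.trans h1.symm)

end Pool.Agent.Results.MP_43e44c_ag.OneHalfOfHodgeClasses
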